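import Mathlib
import Pool.Agent.H103R3.Flat

set_option autoImplicit false

namespace Pool.Agent.Results.MP_3de5be_an.PlanarPairs

/-- The coherence of a finite system: the largest modulus of an inner product of two members. -/
noncomputable def coherence {N d : ℕ} (g : Fin N → EuclideanSpace ℂ (Fin d)) : ℝ :=
  ⨆ p : {p : Fin N × Fin N // p.1 ≠ p.2}, ‖inner ℂ (g p.1.1) (g p.1.2)‖

/-- `c^frame_ℂ(N, d)`: the infimum of the coherences of the normalized frames of `N` vectors in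
`ℂ^d`. -/
noncomputable def cFrame (N d : ℕ) : ℝ :=
  sInf {M : ℝ | ∃ g : Fin N → EuclideanSpace ℂ (Fin d), (∀ k, ‖g k‖ = 1) ∧
    Submodule.span ℂ (Set.range g) = ⊤ ∧ M = coherence g}

/-- A planar system: `d` vectors `r_1, ..., r_d` of `ℂ^N` with entries of modulus one such that the
all-ones vector and the `d² - d` entrywise products `r_k conj(r_l)`, `k ≠ l`, are pairwise
orthogonal. -/
def IsPlanar {N d : ℕ} (r : Fin d → Fin N → ℂ) : Prop :=
  (∀ k i, ‖r k i‖ = 1) ∧ (∀ k l, k ≠ l → ∑ i, r k i * starRingEnd ℂ (r l i) = 0) ∧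
    ∀ k l k' l', k ≠ l → k' ≠ l' → (k, l) ≠ (k', l') →
      ∑ i, (r k i * starRingEnd ℂ (r l i)) * starRingEnd ℂ (r k' i * starRingEnd ℂ (r l' i)) = 0

theorem le_coherence {N d : ℕ} (g : Fin N → EuclideanSpace ℂ (Fin d)) (k l : Fin N) (h : k ≠ l) :
    ‖inner ℂ (g k) (g l)‖ ≤ coherence g :=
  le_ciSup (f := fun p : {p : Fin N × Fin N // p.1 ≠ p.2} => ‖inner ℂ (g p.1.1) (g p.1.2)‖)
    (Set.finite_range _).bddAbove ⟨(k, l), h⟩

theorem exists_frame {N d : ℕ} (hd : 1 ≤ d) (hdN : d ≤ N) :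
    ∃ g : Fin N → EuclideanSpace ℂ (Fin d), (∀ k, ‖g k‖ = 1) ∧
      Submodule.span ℂ (Set.range g) = ⊤ := by
  refine ⟨fun k => EuclideanSpace.single (⟨k % d, Nat.mod_lt _ hd⟩ : Fin d) (1 : ℂ),
    fun k => by simp, ?_⟩
  rw [eq_top_iff, ← (EuclideanSpace.basisFun (Fin d) ℂ).toBasis.span_eq]
  apply Submodule.span_mono
  rintro _ ⟨i, rfl⟩
  refine ⟨⟨i, lt_of_lt_of_le i.2 hdN⟩, ?_⟩
  simp [Nat.mod_eq_of_lt i.2]

/-- The pairs `(N, d)` with `N = d² - d + 1`, `d ≥ 3`.
* The Welch bound is attained for `(d² - d + 1, d)` over `ℂ` if and only if there is a planar system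
  of `d` vectors in `ℂ^N`.
* All optimal systems are of this form: if `g` is a normalized system of `N` vectors in `ℂ^d` whose
  coherence is the Welch bound, then there is an orthonormal basis `e` of `ℂ^d` such that the
  vectors `r_k = (√d ⟨e_k, g_i⟩)_i` form a planar system. -/
theorem result (d N : ℕ) (hd : 3 ≤ d) (hN : N = d ^ 2 - d + 1) :
    (cFrame N d = Real.sqrt (((N : ℝ) - d) / (d * ((N : ℝ) - 1))) ↔
      ∃ r : Fin d → Fin N → ℂ, IsPlanar r) ∧
    ∀ g : Fin N → EuclideanSpace ℂ (Fin d), (∀ k, ‖g k‖ = 1) →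
      coherence g = Real.sqrt (((N : ℝ) - d) / (d * ((N : ℝ) - 1))) →
      ∃ e : OrthonormalBasis (Fin d) ℂ (EuclideanSpace ℂ (Fin d)),
        IsPlanar fun k i => ((Real.sqrt d : ℝ) : ℂ) * inner ℂ (e k) (g i) := by
  classical
  have hdd : d ≤ d ^ 2 := by nlinarith
  have hNd' : N + d = d ^ 2 + 1 := by omega
  have hdN : d ≤ N := by nlinarith
  have hN2 : 2 ≤ N := by omega
  have hd' : (3 : ℝ) ≤ d := by exact_mod_cast hd
  have hNr : (N : ℝ) = (d : ℝ) ^ 2 - d + 1 := by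
    have h : (N : ℝ) + d = (d : ℝ) ^ 2 + 1 := by exact_mod_cast hNd'
    linarith
  have hw2 : ((N : ℝ) - d) / (d * ((N : ℝ) - 1)) = ((d : ℝ) - 1) / (d : ℝ) ^ 2 := by
    rw [hNr]
    have h1 : (d : ℝ) ≠ 0 := by positivity
    have h2 : (d : ℝ) - 1 ≠ 0 := by linarith
    have h3 : (d : ℝ) * ((d : ℝ) ^ 2 - d + 1 - 1) = (d : ℝ) ^ 2 * ((d : ℝ) - 1) := by ring
    rw [h3, div_eq_div_iff (mul_ne_zero (pow_ne_zero 2 h1) h2) (pow_ne_zero 2 h1)]
    ring
  set w : ℝ := Real.sqrt (((N : ℝ) - d) / (d * ((N : ℝ) - 1))) with hw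
  have hw0 : 0 ≤ ((N : ℝ) - d) / (d * ((N : ℝ) - 1)) := by
    rw [hw2]
    apply div_nonneg (by linarith) (by positivity)
  have hwsq : w ^ 2 = ((d : ℝ) - 1) / (d : ℝ) ^ 2 := by
    rw [hw, Real.sq_sqrt hw0, hw2]
  have hwn : 0 ≤ w := Real.sqrt_nonneg _
  -- the structure of optimal systems
  have hstruct : ∀ g : Fin N → EuclideanSpace ℂ (Fin d), (∀ k, ‖g k‖ = 1) →
      (∀ k l, k ≠ l → ‖inner ℂ (g k) (g l)‖ ≤ w) →
      ∃ e : OrthonormalBasis (Fin d) ℂ (EuclideanSpace ℂ (Fin d)),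
        IsPlanar fun k i => ((Real.sqrt d : ℝ) : ℂ) * inner ℂ (e k) (g i) := by
    intro g hg hgw
    obtain ⟨h1, -⟩ := Pool.Agent.H103R3.welch (by omega) hN2 g hg hgw le_rfl hdN
    have h1' : ∀ i j, i ≠ j → ‖inner ℂ (g i) (g j)‖ ^ 2 = ((d : ℝ) - 1) / (d : ℝ) ^ 2 := by
      intro i j hij
      rw [h1 i j hij, ← hwsq]
    obtain ⟨-, -, e, he⟩ := Pool.Agent.H103R3.equality_case hd hNd' g (α := ((d : ℝ) - 1) / (d : ℝ) ^ 2)
      hg h1' (by rw [div_lt_one (by positivity)]; nlinarith)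
      (by
        rw [div_mul_eq_mul_div, Ne, div_eq_one_iff_eq (by positivity)]
        nlinarith)
    refine ⟨e, ?_⟩
    have hr : ∀ k i, ‖((Real.sqrt d : ℝ) : ℂ) * inner ℂ (e k) (g i)‖ = 1 := by
      intro k i
      rw [norm_mul, Complex.norm_real, Real.norm_of_nonneg (Real.sqrt_nonneg _)]
      have h3 : (Real.sqrt d * ‖inner ℂ (e k) (g i)‖) ^ 2 = 1 ^ 2 := by
        rw [mul_pow, he i k, Real.sq_sqrt (by positivity), one_pow, mul_one_div_cancel]
        positivity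
      exact (pow_left_inj₀ (by positivity) zero_le_one two_ne_zero).mp h3
    have h4 : Pool.Agent.H103R3.Flat.Good
        (fun k i => ((Real.sqrt d : ℝ) : ℂ) * inner ℂ (e k) (g i)) := by
      rw [Pool.Agent.H103R3.Flat.good_iff_cols (by omega) hN _ hr]
      intro i j hij
      have h5 : ∑ k, (starRingEnd ℂ) (((Real.sqrt d : ℝ) : ℂ) * inner ℂ (e k) (g i)) *
          (((Real.sqrt d : ℝ) : ℂ) * inner ℂ (e k) (g j)) = (d : ℂ) * inner ℂ (g i) (g j) := by
        rw [← e.sum_inner_mul_inner (g i) (g j), Finset.mul_sum]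
        refine Finset.sum_congr rfl fun k _ => ?_
        rw [map_mul, inner_conj_symm, Complex.conj_ofReal]
        have h6 : ((Real.sqrt d : ℝ) : ℂ) * ((Real.sqrt d : ℝ) : ℂ) = (d : ℂ) := by
          rw [← Complex.ofReal_mul, Real.mul_self_sqrt (by positivity), Complex.ofReal_natCast]
        linear_combination (inner ℂ (g i) (e k) * inner ℂ (e k) (g j)) * h6
      rw [h5, norm_mul, mul_pow, h1' i j hij, Complex.norm_natCast]
      field_simp
    exact ⟨hr, h4.1, h4.2⟩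
  -- the lower bound
  have hlow : ∀ g : Fin N → EuclideanSpace ℂ (Fin d), (∀ k, ‖g k‖ = 1) → w ≤ coherence g := by
    intro g hg
    by_contra hcon
    push Not at hcon
    obtain ⟨h1, -⟩ := Pool.Agent.H103R3.welch (by omega) hN2 g hg
      (fun i j hij => le_coherence g i j hij) hcon.le hdN
    have h2 := h1 ⟨0, by omega⟩ ⟨1, by omega⟩ (by simp)
    have h3 := le_coherence g ⟨0, by omega⟩ ⟨1, by omega⟩ (by simp)
    rw [h2] at h3
    linarith
  refine ⟨⟨fun h => ?_, ?_⟩, fun g hg hc => hstruct g hg (fun k l hkl => hc ▸ le_coherence g k l hkl)⟩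
  · obtain ⟨g0, hg0, hg0s⟩ := exists_frame (N := N) (d := d) (by omega) hdN
    obtain ⟨g, hg, hgw⟩ := Pool.Agent.H103R3.Flat.exists_limit (d := d) (N := N) w (by
      intro n
      have hpos : (0 : ℝ) < 1 / ((n : ℝ) + 1) := by positivity
      obtain ⟨M, ⟨g, hg, hgs, rfl⟩, hM⟩ := exists_lt_of_csInf_lt (s := {M : ℝ | ∃ g : Fin N →
        EuclideanSpace ℂ (Fin d), (∀ k, ‖g k‖ = 1) ∧
          Submodule.span ℂ (Set.range g) = ⊤ ∧ M = coherence g}) ⟨_, g0, hg0, hg0s, rfl⟩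
        (show cFrame N d < w + 1 / ((n : ℝ) + 1) by linarith)
      exact ⟨g, hg, fun k l hkl => (le_coherence g k l hkl).trans hM.le⟩)
    obtain ⟨e, he⟩ := hstruct g hg hgw
    exact ⟨_, he⟩
  · rintro ⟨r, hr, h1, h2⟩
    have hcols := (Pool.Agent.H103R3.Flat.good_iff_cols (by omega) hN r hr).mp ⟨h1, h2⟩
    let x : Fin N → EuclideanSpace ℂ (Fin d) := fun i =>
      WithLp.toLp 2 fun k => (((Real.sqrt d)⁻¹ : ℝ) : ℂ) * r k i
    have hinner : ∀ i j, inner ℂ (x i) (x j) =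
        ((d : ℝ)⁻¹ : ℝ) * ∑ k, (starRingEnd ℂ) (r k i) * r k j := by
      intro i j
      rw [Pool.Agent.H103R3.inner_eq_sum, Finset.mul_sum]
      refine Finset.sum_congr rfl fun k _ => ?_
      simp only [x, map_mul, Complex.conj_ofReal]
      have h6 : (((Real.sqrt d)⁻¹ : ℝ) : ℂ) * (((Real.sqrt d)⁻¹ : ℝ) : ℂ) = ((d : ℝ)⁻¹ : ℝ) := by
        rw [← Complex.ofReal_mul, ← mul_inv, Real.mul_self_sqrt (by positivity)]
      linear_combination ((starRingEnd ℂ) (r k i) * r k j) * h6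
    have hx1 : ∀ i, ‖x i‖ = 1 := by
      intro i
      have h3 : (((‖x i‖ ^ 2 : ℝ)) : ℂ) = 1 := by
        have h4 := inner_self_eq_norm_sq_to_K (𝕜 := ℂ) (x i)
        rw [hinner] at h4
        have h5 : ∑ k, (starRingEnd ℂ) (r k i) * r k i = (d : ℂ) := by
          have h6 : ∀ k, (starRingEnd ℂ) (r k i) * r k i = 1 := fun k => by
            rw [mul_comm]; exact Pool.Agent.H103R3.Flat.conj_mul_self_of_norm (hr k i)
          rw [Finset.sum_congr rfl fun k _ => h6 k]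
          simp
        rw [h5] at h4
        have h7 : (((d : ℝ)⁻¹ : ℝ) : ℂ) * (d : ℂ) = 1 := by
          rw [← Complex.ofReal_natCast, ← Complex.ofReal_mul, inv_mul_cancel₀ (by positivity)]
          simp
        rw [h7] at h4
        rw [h4]
        push_cast
        rfl
      have h4 : ‖x i‖ ^ 2 = 1 := by exact_mod_cast h3
      exact (pow_eq_one_iff_of_nonneg (norm_nonneg _) two_ne_zero).mp h4
    have hx2 : ∀ i j, i ≠ j → ‖inner ℂ (x i) (x j)‖ = w := by
      intro i j hij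
      have h3 : ‖inner ℂ (x i) (x j)‖ ^ 2 = w ^ 2 := by
        rw [hinner, norm_mul, mul_pow, hcols i j hij, hwsq, Complex.norm_real,
          Real.norm_of_nonneg (by positivity)]
        field_simp
      exact (pow_left_inj₀ (norm_nonneg _) hwn two_ne_zero).mp h3
    obtain ⟨-, ht⟩ := Pool.Agent.H103R3.welch (by omega) hN2 x hx1 (fun i j hij => (hx2 i j hij).le)
      le_rfl hdN
    have hspan : Submodule.span ℂ (Set.range x) = ⊤ := by
      rw [← Submodule.orthogonal_eq_bot_iff, Submodule.eq_bot_iff]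
      intro u hu
      rw [Submodule.mem_orthogonal] at hu
      have h := ht u
      have h0 : ∑ k, ‖inner ℂ (x k) u‖ ^ 2 = 0 := by
        refine Finset.sum_eq_zero fun k _ => ?_
        rw [hu (x k) (Submodule.subset_span ⟨k, rfl⟩), norm_zero]
        ring
      rw [h0] at h
      have h5 : (N : ℝ) / d ≠ 0 := by positivity
      have h6 : ‖u‖ ^ 2 = 0 := (mul_eq_zero.mp h.symm).resolve_left h5
      exact norm_eq_zero.mp (pow_eq_zero_iff two_ne_zero |>.mp h6)
    have hcoh : coherence x = w := by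
      apply le_antisymm
      · have : Nonempty {p : Fin N × Fin N // p.1 ≠ p.2} :=
          ⟨⟨(⟨0, by omega⟩, ⟨1, by omega⟩), by simp⟩⟩
        exact ciSup_le fun p => (hx2 p.1.1 p.1.2 p.2).le
      · exact hlow x hx1
    unfold cFrame
    apply le_antisymm
    · apply csInf_le
      · refine ⟨w, ?_⟩
        rintro M ⟨g, hg, -, rfl⟩
        exact hlow g hg
      · exact ⟨x, hx1, hspan, hcoh.symm⟩
    · apply le_csInf
      · exact ⟨coherence x, x, hx1, hspan, rfl⟩
      · rintro M ⟨g, hg, -, rfl⟩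
        exact hlow g hg

end Pool.Agent.Results.MP_3de5be_an.PlanarPairs
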