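import Mathlib
import Pool.Agent.H103R3.Welch

set_option autoImplicit false

namespace Pool.Agent.Results.MP_3de5be_an.WelchGap

/-- The coherence of a finite system: the largest modulus of an inner product of two members. -/
noncomputable def coherence {N d : ℕ} (g : Fin N → EuclideanSpace ℂ (Fin d)) : ℝ :=
  ⨆ p : {p : Fin N × Fin N // p.1 ≠ p.2}, ‖inner ℂ (g p.1.1) (g p.1.2)‖

/-- `c^frame_ℂ(N, d)`: the infimum of the coherences of the normalized frames of `N` vectors in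
`ℂ^d`. -/
noncomputable def cFrame (N d : ℕ) : ℝ :=
  sInf {M : ℝ | ∃ g : Fin N → EuclideanSpace ℂ (Fin d), (∀ k, ‖g k‖ = 1) ∧
    Submodule.span ℂ (Set.range g) = ⊤ ∧ M = coherence g}

theorem le_coherence {N d : ℕ} (g : Fin N → EuclideanSpace ℂ (Fin d)) (k l : Fin N) (h : k ≠ l) :
    ‖inner ℂ (g k) (g l)‖ ≤ coherence g :=
  le_ciSup (f := fun p : {p : Fin N × Fin N // p.1 ≠ p.2} => ‖inner ℂ (g p.1.1) (g p.1.2)‖)
    (Set.finite_range _).bddAbove ⟨(k, l), h⟩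

theorem exists_frame {N d : ℕ} (hd : 1 ≤ d) (hdN : d ≤ N) :
    ∃ g : Fin N → EuclideanSpace ℂ (Fin d), (∀ k, ‖g k‖ = 1) ∧
      Submodule.span ℂ (Set.range g) = ⊤ := by
  refine ⟨fun k => EuclideanSpace.single (⟨k % d, Nat.mod_lt _ hd⟩ : Fin d) (1 : ℂ),
    fun k => by simp, ?_⟩
  rw [eq_top_iff, ← (EuclideanSpace.basisFun (Fin d) ℂ).toBasis.span_eq]
  apply Submodule.span_mono
  rintro _ ⟨i, rfl⟩
  refine ⟨⟨i, lt_of_lt_of_le i.2 hdN⟩, ?_⟩
  simp [Nat.mod_eq_of_lt i.2]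

/-- The Welch bound is not attained (not even as an infimum) in the gaps
`d² - d + 1 < N < d²` and, with `e = N - d`, `e² - e + 1 < N < e²`. -/
theorem result (N d : ℕ) (hd : 1 ≤ d) (hdN : d ≤ N)
    (h : ((d : ℝ) ^ 2 - d + 1 < N ∧ (N : ℝ) < (d : ℝ) ^ 2) ∨
      (((N : ℝ) - d) ^ 2 - ((N : ℝ) - d) + 1 < N ∧ (N : ℝ) < ((N : ℝ) - d) ^ 2)) :
    Real.sqrt (((N : ℝ) - d) / (d * ((N : ℝ) - 1))) < cFrame N d := by
  classical
  have hd' : (1 : ℝ) ≤ d := by exact_mod_cast hd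
  have hdN' : (d : ℝ) ≤ N := by exact_mod_cast hdN
  have hlt : d < N := by
    have : (d : ℝ) < N := by
      rcases h with ⟨h1, h2⟩ | ⟨h1, h2⟩ <;> nlinarith
    exact_mod_cast this
  have hN2 : 2 ≤ N := by omega
  set w : ℝ := Real.sqrt (((N : ℝ) - d) / (d * ((N : ℝ) - 1))) with hw
  have hw0 : 0 ≤ ((N : ℝ) - d) / (d * ((N : ℝ) - 1)) := by
    apply div_nonneg (by linarith)
    apply mul_nonneg (by linarith) (by linarith)
  by_contra hcon
  push Not at hcon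
  obtain ⟨g0, hg0, hg0s⟩ := exists_frame hd hdN
  -- approximate minimisers
  let C : ℕ → Set (Fin N → EuclideanSpace ℂ (Fin d)) := fun n =>
    {g | (∀ k, ‖g k‖ = 1) ∧ ∀ k l, k ≠ l → ‖inner ℂ (g k) (g l)‖ ≤ w + 1 / ((n : ℝ) + 1)}
  have hCne : ∀ n, (C n).Nonempty := by
    intro n
    have hpos : (0 : ℝ) < 1 / ((n : ℝ) + 1) := by positivity
    obtain ⟨M, ⟨g, hg, hgs, rfl⟩, hM⟩ := exists_lt_of_csInf_lt (s := {M : ℝ | ∃ g : Fin N →
      EuclideanSpace ℂ (Fin d), (∀ k, ‖g k‖ = 1) ∧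
        Submodule.span ℂ (Set.range g) = ⊤ ∧ M = coherence g}) ⟨_, g0, hg0, hg0s, rfl⟩
      (show cFrame N d < w + 1 / ((n : ℝ) + 1) by linarith)
    exact ⟨g, hg, fun k l hkl => (le_coherence g k l hkl).trans hM.le⟩
  have hCclosed : ∀ n, IsClosed (C n) := by
    intro n
    have h1 : C n = (⋂ k, {g : Fin N → EuclideanSpace ℂ (Fin d) | ‖g k‖ = 1}) ∩
        ⋂ k, ⋂ l, ⋂ (_ : k ≠ l), {g : Fin N → EuclideanSpace ℂ (Fin d) |
          ‖inner ℂ (g k) (g l)‖ ≤ w + 1 / ((n : ℝ) + 1)} := by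
      ext g
      simp only [C, Set.mem_setOf_eq, Set.mem_inter_iff, Set.mem_iInter]
    rw [h1]
    refine IsClosed.inter (isClosed_iInter fun k => ?_) (isClosed_iInter fun k =>
      isClosed_iInter fun l => isClosed_iInter fun _ => ?_)
    · exact isClosed_eq ((continuous_apply k).norm) continuous_const
    · exact isClosed_le (((continuous_apply k).inner (continuous_apply l)).norm) continuous_const
  have hKcomp : IsCompact (Set.univ.pi fun _ : Fin N =>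
      Metric.sphere (0 : EuclideanSpace ℂ (Fin d)) 1) :=
    isCompact_univ_pi fun _ => isCompact_sphere _ _
  have hC0 : IsCompact (C 0) := by
    apply hKcomp.of_isClosed_subset (hCclosed 0)
    intro g hg k _
    simpa using hg.1 k
  have hmono : ∀ n, C (n + 1) ⊆ C n := by
    intro n g hg
    refine ⟨hg.1, fun k l hkl => (hg.2 k l hkl).trans ?_⟩
    have h1 : 1 / (((n + 1 : ℕ) : ℝ) + 1) ≤ 1 / ((n : ℝ) + 1) := by
      apply one_div_le_one_div_of_le (by positivity)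
      push_cast
      linarith
    linarith
  obtain ⟨g, hg⟩ := IsCompact.nonempty_iInter_of_sequence_nonempty_isCompact_isClosed C hmono hCne
    hC0 hCclosed
  rw [Set.mem_iInter] at hg
  have hgu : ∀ k, ‖g k‖ = 1 := (hg 0).1
  have hgw : ∀ k l, k ≠ l → ‖inner ℂ (g k) (g l)‖ ≤ w := by
    intro k l hkl
    apply le_of_forall_pos_le_add
    intro ε hε
    obtain ⟨n, hn⟩ := exists_nat_one_div_lt hε
    have := (hg n).2 k l hkl
    linarith
  obtain ⟨h1, h2⟩ := Pool.Agent.H103R3.welch (by omega) hN2 g hgu hgw le_rfl hdN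
  have h1' : ∀ i j, i ≠ j → ‖inner ℂ (g i) (g j)‖ ^ 2 =
      ((N : ℝ) - d) / (d * ((N : ℝ) - 1)) := by
    intro i j hij
    rw [h1 i j hij, Real.sq_sqrt hw0]
  rcases h with ⟨h3, h4⟩ | ⟨h3, h4⟩
  · refine Pool.Agent.H103R3.etf_gap (by omega) g hgu h1' ?_ (by exact_mod_cast h4)
    have h5 : (d : ℝ) ^ 2 + 1 < N + d := by linarith
    exact_mod_cast h5
  · obtain ⟨y, hy1, hy2⟩ := Pool.Agent.H103R3.naimark (by omega) hlt g hgu h1' h2
    have hNd : ((N - d : ℕ) : ℝ) = (N : ℝ) - d := by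
      rw [Nat.cast_sub hdN]
    refine Pool.Agent.H103R3.etf_gap (by omega) y hy1 hy2 ?_ ?_
    · have h5 : ((N - d : ℕ) : ℝ) ^ 2 + 1 < N + (N - d : ℕ) := by rw [hNd]; linarith
      exact_mod_cast h5
    · have h5 : (N : ℝ) < ((N - d : ℕ) : ℝ) ^ 2 := by rw [hNd]; exact h4
      exact_mod_cast h5

end Pool.Agent.Results.MP_3de5be_an.WelchGap
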